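import Mathlib

/-!
# MP_7bf775_co, Q1: capped ordered graphs have biclique covers of size `O(n log^2 n)`

The vertices `0, ..., n - 1` are organised in a binary tree (dyadic intervals). For an edge `i l`
split at scale `T` let `k` be the first neighbour of `i` on the other side and `j` the last
neighbour of `l` on the other side. The bicliques are indexed by the scale `T` and the tree nodes at
which `i, j` and `k, l` are split. A vertex which also has a neighbour at an intermediate scale is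
covered by cheaper bicliques which do not depend on the second node; a telescoping argument then
bounds the number of memberships by the square of the number of scales.
-/

set_option autoImplicit false

namespace Pool.Agent.Results.MP_7bf775_co.CappedCover

open Finset

/-- An ordered graph on `0 < 1 < ... < n - 1` is capped: if `i < j < k < l` and `ik`, `jl` are
edges, then `il` is an edge. -/
def Capped {n : ℕ} (G : SimpleGraph (Fin n)) : Prop :=
  ∀ i j k l : Fin n, i < j → j < k → k < l → G.Adj i k → G.Adj j l → G.Adj i l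

/-- `(A, B)` is a biclique: `A` and `B` are disjoint nonempty sets, completely joined in `G`. -/
def IsBiclique {n : ℕ} (G : SimpleGraph (Fin n)) (p : Finset (Fin n) × Finset (Fin n)) : Prop :=
  p.1.Nonempty ∧ p.2.Nonempty ∧ Disjoint p.1 p.2 ∧ ∀ a ∈ p.1, ∀ b ∈ p.2, G.Adj a b

/-- The finite family `L` is a biclique cover of `G`: its members are bicliques, and every edge has
one end in `A` and the other in `B` for some member `(A, B)`. -/
def IsBicliqueCover {n : ℕ} (G : SimpleGraph (Fin n))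
    (L : List (Finset (Fin n) × Finset (Fin n))) : Prop :=
  (∀ p ∈ L, IsBiclique G p) ∧
    ∀ a b, G.Adj a b → ∃ p ∈ L, (a ∈ p.1 ∧ b ∈ p.2) ∨ (b ∈ p.1 ∧ a ∈ p.2)

/-- The size of a family: the sum of `|A| + |B|` over its members `(A, B)`. -/
def coverSize {n : ℕ} (L : List (Finset (Fin n) × Finset (Fin n))) : ℕ :=
  (L.map (fun p => p.1.card + p.2.card)).sum

/-- `x < y` are in the same dyadic interval of length `2 ^ (T + 1)` but not of length `2 ^ T` -/
def sep (T x y : ℕ) : Prop := x / 2 ^ (T + 1) = y / 2 ^ (T + 1) ∧ x / 2 ^ T < y / 2 ^ T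

lemma sep.lt {T x y : ℕ} (h : sep T x y) : x < y := by
  by_contra hcon
  have := Nat.div_le_div_right (c := 2 ^ T) (not_lt.1 hcon)
  have := h.2
  omega

/-- equality of dyadic intervals is inherited by larger scales -/
lemma div_up {s t x y : ℕ} (hst : s ≤ t) (h : x / 2 ^ s = y / 2 ^ s) : x / 2 ^ t = y / 2 ^ t := by
  obtain ⟨d, rfl⟩ := Nat.exists_eq_add_of_le hst
  rw [pow_add, ← Nat.div_div_eq_div_mul, ← Nat.div_div_eq_div_mul, h]

lemma lt_of_div {t x y : ℕ} (h : x / 2 ^ t < y / 2 ^ t) : x < y := by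
  by_contra hcon
  have := Nat.div_le_div_right (c := 2 ^ t) (not_lt.1 hcon)
  omega

lemma exists_sep {M x y : ℕ} (hxy : x < y) (hy : y < 2 ^ M) : ∃ T < M, sep T x y := by
  classical
  have hex : ∃ t, x / 2 ^ t = y / 2 ^ t :=
    ⟨M, by rw [Nat.div_eq_of_lt hy, Nat.div_eq_of_lt (hxy.trans hy)]⟩
  obtain ⟨t, ht⟩ : ∃ t, t = Nat.find hex := ⟨_, rfl⟩
  have h1 : x / 2 ^ t = y / 2 ^ t := ht ▸ Nat.find_spec hex
  have h0 : t ≠ 0 := by
    rintro rfl
    simp only [pow_zero, Nat.div_one] at h1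
    omega
  obtain ⟨T, rfl⟩ := Nat.exists_eq_succ_of_ne_zero h0
  have h2 : x / 2 ^ T ≠ y / 2 ^ T := by
    apply Nat.find_min hex
    rw [← ht]
    exact Nat.lt_succ_self T
  have h3 : T.succ ≤ M := by
    rw [ht]
    apply Nat.find_min'
    rw [Nat.div_eq_of_lt hy, Nat.div_eq_of_lt (hxy.trans hy)]
  refine ⟨T, h3, h1, ?_⟩
  have := Nat.div_le_div_right (c := 2 ^ T) hxy.le
  omega

/-- the two halves of the interval of length `2 ^ (T + 1)` -/
lemma sep.halves {T x y : ℕ} (h : sep T x y) :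
    x / 2 ^ T = 2 * (x / 2 ^ (T + 1)) ∧ y / 2 ^ T = 2 * (x / 2 ^ (T + 1)) + 1 := by
  obtain ⟨h1, h2⟩ := h
  have e1 : x / 2 ^ (T + 1) = x / 2 ^ T / 2 := by rw [pow_succ, ← Nat.div_div_eq_div_mul]
  have e2 : y / 2 ^ (T + 1) = y / 2 ^ T / 2 := by rw [pow_succ, ← Nat.div_div_eq_div_mul]
  omega

section
variable {n : ℕ} {G : SimpleGraph (Fin n)}

/-- `x` has a neighbour to the right at scale `T` -/
def RA (G : SimpleGraph (Fin n)) (T : ℕ) (x : Fin n) : Prop := ∃ k, G.Adj x k ∧ sep T x k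

/-- `y` has a neighbour to the left at scale `T` -/
def CA (G : SimpleGraph (Fin n)) (T : ℕ) (y : Fin n) : Prop := ∃ j, G.Adj j y ∧ sep T j y

/-- `k` is the first neighbour of `x` to the right at scale `T` -/
def IsF (G : SimpleGraph (Fin n)) (T : ℕ) (x k : Fin n) : Prop :=
  G.Adj x k ∧ sep T x k ∧ ∀ k', G.Adj x k' → sep T x k' → k ≤ k'

/-- `j` is the last neighbour of `y` to the left at scale `T` -/
def IsL (G : SimpleGraph (Fin n)) (T : ℕ) (y j : Fin n) : Prop :=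
  G.Adj j y ∧ sep T j y ∧ ∀ j', G.Adj j' y → sep T j' y → j' ≤ j

lemma IsF.unique {T : ℕ} {x k k' : Fin n} (h : IsF G T x k) (h' : IsF G T x k') : k = k' :=
  le_antisymm (h.2.2 k' h'.1 h'.2.1) (h'.2.2 k h.1 h.2.1)

lemma IsL.unique {T : ℕ} {y j j' : Fin n} (h : IsL G T y j) (h' : IsL G T y j') : j = j' :=
  le_antisymm (h'.2.2 j h.1 h.2.1) (h.2.2 j' h'.1 h'.2.1)

lemma RA.exists {T : ℕ} {x : Fin n} (h : RA G T x) : ∃ k, IsF G T x k := by
  classical
  obtain ⟨k, hk⟩ := h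
  obtain ⟨m, hm, hmin⟩ := exists_min_image (univ.filter (fun k => G.Adj x k ∧ sep T x k))
    (fun k => k) ⟨k, by simp [hk.1, hk.2]⟩
  rw [mem_filter] at hm
  exact ⟨m, hm.2.1, hm.2.2, fun k' h1 h2 => hmin k' (by simp [h1, h2])⟩

lemma CA.exists {T : ℕ} {y : Fin n} (h : CA G T y) : ∃ j, IsL G T y j := by
  classical
  obtain ⟨k, hk⟩ := h
  obtain ⟨m, hm, hmax⟩ := exists_max_image (univ.filter (fun j => G.Adj j y ∧ sep T j y))
    (fun k => k) ⟨k, by simp [hk.1, hk.2]⟩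
  rw [mem_filter] at hm
  exact ⟨m, hm.2.1, hm.2.2, fun k' h1 h2 => hmax k' (by simp [h1, h2])⟩

/-- a family of bicliques from keys -/
lemma family {K : Type} [DecidableEq K] (keys : Finset K) (R C : K → Finset (Fin n))
    (h : ∀ κ ∈ keys, ∀ x ∈ R κ, ∀ y ∈ C κ, G.Adj x y) :
    ∃ L : List (Finset (Fin n) × Finset (Fin n)), (∀ p ∈ L, IsBiclique G p) ∧
      (∀ κ ∈ keys, ∀ x ∈ R κ, ∀ y ∈ C κ, ∃ p ∈ L, x ∈ p.1 ∧ y ∈ p.2) ∧
      coverSize L ≤ ∑ κ ∈ keys, ((R κ).card + (C κ).card) := by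
  classical
  refine ⟨(keys.filter (fun κ => (R κ).Nonempty ∧ (C κ).Nonempty)).toList.map
    (fun κ => (R κ, C κ)), ?_, ?_, ?_⟩
  · intro p hp
    rw [List.mem_map] at hp
    obtain ⟨κ, hκ, rfl⟩ := hp
    rw [mem_toList, mem_filter] at hκ
    refine ⟨hκ.2.1, hκ.2.2, ?_, fun a ha b hb => h κ hκ.1 a ha b hb⟩
    rw [disjoint_left]
    intro a ha hb
    exact (h κ hκ.1 a ha a hb).ne rfl
  · intro κ hκ x hx y hy
    refine ⟨(R κ, C κ), ?_, hx, hy⟩
    rw [List.mem_map]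
    exact ⟨κ, by rw [mem_toList, mem_filter]; exact ⟨hκ, ⟨x, hx⟩, ⟨y, hy⟩⟩, rfl⟩
  · unfold coverSize
    rw [List.map_map]
    have : ∀ s : Finset K, (s.toList.map ((fun p : Finset (Fin n) × Finset (Fin n) =>
        p.1.card + p.2.card) ∘ fun κ => (R κ, C κ))).sum =
        ∑ κ ∈ s, ((R κ).card + (C κ).card) := by
      intro s
      rw [← Finset.sum_map_toList]
      rfl
    rw [this]
    exact sum_le_sum_of_subset (filter_subset _ _)

/-- double counting of memberships -/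
lemma count {K : Type} [DecidableEq K] (keys : Finset K) (R : K → Finset (Fin n)) (N : ℕ)
    (h : ∀ x, (keys.filter (fun κ => x ∈ R κ)).card ≤ N) : ∑ κ ∈ keys, (R κ).card ≤ n * N := by
  have h1 : ∀ κ ∈ keys, (R κ).card = ∑ x : Fin n, if x ∈ R κ then 1 else 0 := by
    intro κ _
    rw [← card_filter]
    congr 1
    ext x
    simp
  rw [sum_congr rfl h1, sum_comm]
  calc ∑ x : Fin n, ∑ κ ∈ keys, (if x ∈ R κ then 1 else 0) ≤ ∑ _x : Fin n, N := by
        apply sum_le_sum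
        intro x _
        rw [← card_filter]
        exact h x
    _ = n * N := by simp

/-- counting keys by an injective map into pairs of scales -/
lemma card_keys {K : Type} [DecidableEq K] (keys : Finset K) (M : ℕ) (g : K → ℕ × ℕ)
    (hg : ∀ κ ∈ keys, (g κ).1 < M ∧ (g κ).2 < M)
    (hinj : ∀ κ ∈ keys, ∀ κ' ∈ keys, g κ = g κ' → κ = κ') : keys.card ≤ M * M := by
  have h : keys.card ≤ (range M ×ˢ range M).card := by
    apply card_le_card_of_injOn g
    · intro κ hκ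
      have := hg κ hκ
      rw [mem_coe, mem_product, mem_range, mem_range]
      exact this
    · intro κ hκ κ' hκ' h
      exact hinj κ hκ κ' hκ' h
  rwa [card_product, card_range] at h

/-- the keys -/
def keys1 (n M : ℕ) : Finset (ℕ × ℕ × ℕ) := range M ×ˢ (range M ×ˢ range n)

lemma mem_keys1 {n M : ℕ} {κ : ℕ × ℕ × ℕ} :
    κ ∈ keys1 n M ↔ κ.1 < M ∧ κ.2.1 < M ∧ κ.2.2 < n := by
  unfold keys1
  rw [mem_product, mem_product, mem_range, mem_range, mem_range]

/-- first family -/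
lemma fam1 (hG : Capped G) (M : ℕ) :
    ∃ L : List (Finset (Fin n) × Finset (Fin n)), (∀ p ∈ L, IsBiclique G p) ∧
      (∀ (T s t : ℕ) (x y j : Fin n), T < M → s < t → t < T → IsL G T y j → sep s x j →
        RA G t x → ∃ p ∈ L, x ∈ p.1 ∧ y ∈ p.2) ∧ coverSize L ≤ n * (M * M) + n * (M * M) := by
  classical
  let R : ℕ × ℕ × ℕ → Finset (Fin n) := fun κ =>
    univ.filter (fun x : Fin n => (x : ℕ) / 2 ^ κ.2.1 = 2 * κ.2.2 ∧
      ∃ t, κ.2.1 < t ∧ t < κ.1 ∧ RA G t x)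
  let C : ℕ × ℕ × ℕ → Finset (Fin n) := fun κ =>
    univ.filter (fun y : Fin n => ∃ j : Fin n, IsL G κ.1 y j ∧ (j : ℕ) / 2 ^ κ.2.1 = 2 * κ.2.2 + 1)
  have memR : ∀ κ x, x ∈ R κ ↔ (x : ℕ) / 2 ^ κ.2.1 = 2 * κ.2.2 ∧
      ∃ t, κ.2.1 < t ∧ t < κ.1 ∧ RA G t x := by
    intro κ x
    simp only [R, mem_filter, mem_univ, true_and]
  have memC : ∀ κ y, y ∈ C κ ↔ ∃ j : Fin n, IsL G κ.1 y j ∧
      (j : ℕ) / 2 ^ κ.2.1 = 2 * κ.2.2 + 1 := by
    intro κ y
    simp only [C, mem_filter, mem_univ, true_and]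
  obtain ⟨L, hL1, hL2, hL3⟩ := family (G := G) (keys1 n M) R C (by
    rintro ⟨T, s, b⟩ _ x hx y hy
    obtain ⟨hxb, t, hst, htT, K, hxK, hsep⟩ := (memR _ x).1 hx
    obtain ⟨j, ⟨hjy, hjs, _⟩, hjb⟩ := (memC _ y).1 hy
    simp only at hxb hst htT hsep hjy hjs hjb
    have e0 : (x : ℕ) / 2 ^ (s + 1) = (j : ℕ) / 2 ^ (s + 1) := by
      rw [pow_succ, ← Nat.div_div_eq_div_mul, ← Nat.div_div_eq_div_mul]
      omega
    have e1 : (x : ℕ) / 2 ^ t = (j : ℕ) / 2 ^ t := div_up hst e0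
    have e2 : (x : ℕ) / 2 ^ T = (j : ℕ) / 2 ^ T := div_up (by omega) e0
    have e3 : (x : ℕ) / 2 ^ T = (K : ℕ) / 2 ^ T := div_up (by omega) hsep.1
    have l1 : (x : ℕ) < j := lt_of_div (t := s) (by omega)
    have l2 : (j : ℕ) < K := lt_of_div (t := t) (by rw [← e1]; exact hsep.2)
    have l3 : (K : ℕ) < y := lt_of_div (t := T) (by rw [← e3, e2]; exact hjs.2)
    exact hG x j K y l1 l2 l3 hxK hjy)
  refine ⟨L, hL1, ?_, ?_⟩
  · intro T s t x y j hT hst htT hj hsep hRA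
    have hh := hsep.halves
    apply hL2 (T, s, (x : ℕ) / 2 ^ (s + 1)) _ x _ y
    · rw [memC]
      exact ⟨j, hj, hh.2⟩
    · rw [mem_keys1]
      refine ⟨hT, by simp only; omega, ?_⟩
      exact lt_of_le_of_lt (Nat.div_le_self _ _) x.2
    · rw [memR]
      exact ⟨hh.1, t, hst, htT, hRA⟩
  · refine le_trans hL3 ?_
    rw [sum_add_distrib]
    apply add_le_add
    · apply count
      intro x
      apply card_keys _ M (fun κ => (κ.1, κ.2.1))
      · intro κ hκ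
        rw [mem_filter, mem_keys1] at hκ
        exact ⟨hκ.1.1, hκ.1.2.1⟩
      · rintro ⟨T, s, b⟩ hκ ⟨T', s', b'⟩ hκ' heq
        rw [mem_filter, memR] at hκ hκ'
        simp only [Prod.mk.injEq] at heq
        obtain ⟨rfl, rfl⟩ := heq
        have h1 := hκ.2.1
        have h2 := hκ'.2.1
        simp only at h1 h2
        have : b = b' := by omega
        rw [this]
    · apply count
      intro y
      apply card_keys _ M (fun κ => (κ.1, κ.2.1))
      · intro κ hκ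
        rw [mem_filter, mem_keys1] at hκ
        exact ⟨hκ.1.1, hκ.1.2.1⟩
      · rintro ⟨T, s, b⟩ hκ ⟨T', s', b'⟩ hκ' heq
        rw [mem_filter, memC] at hκ hκ'
        simp only [Prod.mk.injEq] at heq
        obtain ⟨rfl, rfl⟩ := heq
        obtain ⟨j, hj, h1⟩ := hκ.2
        obtain ⟨j', hj', h2⟩ := hκ'.2
        simp only at h1 h2 hj hj'
        rw [hj.unique hj'] at h1
        have : b = b' := by omega
        rw [this]

/-- second family -/
lemma fam2 (hG : Capped G) (M : ℕ) :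
    ∃ L : List (Finset (Fin n) × Finset (Fin n)), (∀ p ∈ L, IsBiclique G p) ∧
      (∀ (T s t : ℕ) (x y k : Fin n), T < M → s < t → t < T → IsF G T x k → sep s k y →
        CA G t y → ∃ p ∈ L, x ∈ p.1 ∧ y ∈ p.2) ∧ coverSize L ≤ n * (M * M) + n * (M * M) := by
  classical
  let R : ℕ × ℕ × ℕ → Finset (Fin n) := fun κ =>
    univ.filter (fun x : Fin n => ∃ k : Fin n, IsF G κ.1 x k ∧ (k : ℕ) / 2 ^ κ.2.1 = 2 * κ.2.2)
  let C : ℕ × ℕ × ℕ → Finset (Fin n) := fun κ =>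
    univ.filter (fun y : Fin n => (y : ℕ) / 2 ^ κ.2.1 = 2 * κ.2.2 + 1 ∧
      ∃ t, κ.2.1 < t ∧ t < κ.1 ∧ CA G t y)
  have memR : ∀ κ x, x ∈ R κ ↔ ∃ k : Fin n, IsF G κ.1 x k ∧
      (k : ℕ) / 2 ^ κ.2.1 = 2 * κ.2.2 := by
    intro κ x
    simp only [R, mem_filter, mem_univ, true_and]
  have memC : ∀ κ y, y ∈ C κ ↔ (y : ℕ) / 2 ^ κ.2.1 = 2 * κ.2.2 + 1 ∧
      ∃ t, κ.2.1 < t ∧ t < κ.1 ∧ CA G t y := by
    intro κ y
    simp only [C, mem_filter, mem_univ, true_and]
  obtain ⟨L, hL1, hL2, hL3⟩ := family (G := G) (keys1 n M) R C (by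
    rintro ⟨T, s, b⟩ _ x hx y hy
    obtain ⟨k, ⟨hxk, hks, _⟩, hkb⟩ := (memR _ x).1 hx
    obtain ⟨hyb, t, hst, htT, J, hJy, hsep⟩ := (memC _ y).1 hy
    simp only at hyb hst htT hsep hxk hks hkb
    have e0 : (k : ℕ) / 2 ^ (s + 1) = (y : ℕ) / 2 ^ (s + 1) := by
      rw [pow_succ, ← Nat.div_div_eq_div_mul, ← Nat.div_div_eq_div_mul]
      omega
    have e1 : (k : ℕ) / 2 ^ t = (y : ℕ) / 2 ^ t := div_up hst e0
    have e2 : (k : ℕ) / 2 ^ T = (y : ℕ) / 2 ^ T := div_up (by omega) e0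
    have e3 : (J : ℕ) / 2 ^ T = (y : ℕ) / 2 ^ T := div_up (by omega) hsep.1
    have l1 : (x : ℕ) < J := lt_of_div (t := T) (by rw [e3, ← e2]; exact hks.2)
    have l2 : (J : ℕ) < k := lt_of_div (t := t) (by rw [e1]; exact hsep.2)
    have l3 : (k : ℕ) < y := lt_of_div (t := s) (by omega)
    exact hG x J k y l1 l2 l3 hxk hJy)
  refine ⟨L, hL1, ?_, ?_⟩
  · intro T s t x y k hT hst htT hk hsep hCA
    have hh := hsep.halves
    apply hL2 (T, s, (k : ℕ) / 2 ^ (s + 1)) _ x _ y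
    · rw [memC]
      exact ⟨hh.2, t, hst, htT, hCA⟩
    · rw [mem_keys1]
      refine ⟨hT, by simp only; omega, ?_⟩
      exact lt_of_le_of_lt (Nat.div_le_self _ _) k.2
    · rw [memR]
      exact ⟨k, hk, hh.1⟩
  · refine le_trans hL3 ?_
    rw [sum_add_distrib]
    apply add_le_add
    · apply count
      intro x
      apply card_keys _ M (fun κ => (κ.1, κ.2.1))
      · intro κ hκ
        rw [mem_filter, mem_keys1] at hκ
        exact ⟨hκ.1.1, hκ.1.2.1⟩
      · rintro ⟨T, s, b⟩ hκ ⟨T', s', b'⟩ hκ' heq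
        rw [mem_filter, memR] at hκ hκ'
        simp only [Prod.mk.injEq] at heq
        obtain ⟨rfl, rfl⟩ := heq
        obtain ⟨j, hj, h1⟩ := hκ.2
        obtain ⟨j', hj', h2⟩ := hκ'.2
        simp only at h1 h2 hj hj'
        rw [hj.unique hj'] at h1
        have : b = b' := by omega
        rw [this]
    · apply count
      intro y
      apply card_keys _ M (fun κ => (κ.1, κ.2.1))
      · intro κ hκ
        rw [mem_filter, mem_keys1] at hκ
        exact ⟨hκ.1.1, hκ.1.2.1⟩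
      · rintro ⟨T, s, b⟩ hκ ⟨T', s', b'⟩ hκ' heq
        rw [mem_filter, memC] at hκ hκ'
        simp only [Prod.mk.injEq] at heq
        obtain ⟨rfl, rfl⟩ := heq
        have h1 := hκ.2.1
        have h2 := hκ'.2.1
        simp only at h1 h2
        have : b = b' := by omega
        rw [this]

/-- the keys of the third family -/
def keys3 (n M : ℕ) : Finset (ℕ × ℕ × ℕ × ℕ × ℕ) :=
  range M ×ˢ (range M ×ˢ (range n ×ˢ (range M ×ˢ range n)))

lemma mem_keys3 {n M : ℕ} {κ : ℕ × ℕ × ℕ × ℕ × ℕ} : κ ∈ keys3 n M ↔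
    κ.1 < M ∧ κ.2.1 < M ∧ κ.2.2.1 < n ∧ κ.2.2.2.1 < M ∧ κ.2.2.2.2 < n := by
  unfold keys3
  rw [mem_product, mem_product, mem_product, mem_product, mem_range, mem_range, mem_range,
    mem_range, mem_range]

/-- third family -/
lemma fam3 (hG : Capped G) (M : ℕ) :
    ∃ L : List (Finset (Fin n) × Finset (Fin n)), (∀ p ∈ L, IsBiclique G p) ∧
      (∀ (T s s' : ℕ) (x y j k : Fin n), T < M → s < T → s' < T → IsF G T x k → IsL G T y j →
        sep s x j → sep s' k y → (¬ ∃ t, s < t ∧ t < T ∧ RA G t x) →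
        (¬ ∃ t, s' < t ∧ t < T ∧ CA G t y) → ∃ p ∈ L, x ∈ p.1 ∧ y ∈ p.2) ∧
      coverSize L ≤ n * (M * M) + n * (M * M) := by
  classical
  let R : ℕ × ℕ × ℕ × ℕ × ℕ → Finset (Fin n) := fun κ =>
    univ.filter (fun x : Fin n => κ.2.1 < κ.1 ∧ (x : ℕ) / 2 ^ κ.2.1 = 2 * κ.2.2.1 ∧
      (∃ k : Fin n, IsF G κ.1 x k ∧ (k : ℕ) / 2 ^ κ.2.2.2.1 = 2 * κ.2.2.2.2) ∧
      ¬ ∃ t, κ.2.1 < t ∧ t < κ.1 ∧ RA G t x)
  let C : ℕ × ℕ × ℕ × ℕ × ℕ → Finset (Fin n) := fun κ =>
    univ.filter (fun y : Fin n => κ.2.2.2.1 < κ.1 ∧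
      (y : ℕ) / 2 ^ κ.2.2.2.1 = 2 * κ.2.2.2.2 + 1 ∧
      (∃ j : Fin n, IsL G κ.1 y j ∧ (j : ℕ) / 2 ^ κ.2.1 = 2 * κ.2.2.1 + 1) ∧
      ¬ ∃ t, κ.2.2.2.1 < t ∧ t < κ.1 ∧ CA G t y)
  have memR : ∀ κ x, x ∈ R κ ↔ κ.2.1 < κ.1 ∧ (x : ℕ) / 2 ^ κ.2.1 = 2 * κ.2.2.1 ∧
      (∃ k : Fin n, IsF G κ.1 x k ∧ (k : ℕ) / 2 ^ κ.2.2.2.1 = 2 * κ.2.2.2.2) ∧
      ¬ ∃ t, κ.2.1 < t ∧ t < κ.1 ∧ RA G t x := by
    intro κ x
    simp only [R, mem_filter, mem_univ, true_and]
  have memC : ∀ κ y, y ∈ C κ ↔ κ.2.2.2.1 < κ.1 ∧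
      (y : ℕ) / 2 ^ κ.2.2.2.1 = 2 * κ.2.2.2.2 + 1 ∧
      (∃ j : Fin n, IsL G κ.1 y j ∧ (j : ℕ) / 2 ^ κ.2.1 = 2 * κ.2.2.1 + 1) ∧
      ¬ ∃ t, κ.2.2.2.1 < t ∧ t < κ.1 ∧ CA G t y := by
    intro κ y
    simp only [C, mem_filter, mem_univ, true_and]
  obtain ⟨L, hL1, hL2, hL3⟩ := family (G := G) (keys3 n M) R C (by
    rintro ⟨T, s, b, s', b'⟩ _ x hx y hy
    obtain ⟨hsT, hxb, ⟨k, ⟨hxk, hks, _⟩, hkb⟩, _⟩ := (memR _ x).1 hx
    obtain ⟨hsT', hyb, ⟨j, ⟨hjy, hjs, _⟩, hjb⟩, _⟩ := (memC _ y).1 hy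
    simp only at hsT hxb hxk hks hkb hsT' hyb hjy hjs hjb
    have e0 : (x : ℕ) / 2 ^ (s + 1) = (j : ℕ) / 2 ^ (s + 1) := by
      rw [pow_succ, ← Nat.div_div_eq_div_mul, ← Nat.div_div_eq_div_mul]
      omega
    have e2 : (x : ℕ) / 2 ^ T = (j : ℕ) / 2 ^ T := div_up (by omega) e0
    have l1 : (x : ℕ) < j := lt_of_div (t := s) (by omega)
    have l2 : (j : ℕ) < k := lt_of_div (t := T) (by rw [← e2]; exact hks.2)
    have l3 : (k : ℕ) < y := lt_of_div (t := s') (by omega)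
    exact hG x j k y l1 l2 l3 hxk hjy)
  refine ⟨L, hL1, ?_, ?_⟩
  · intro T s s' x y j k hT hsT hsT' hk hj hsj hsk hnx hny
    have h1 := hsj.halves
    have h2 := hsk.halves
    apply hL2 (T, s, (x : ℕ) / 2 ^ (s + 1), s', (k : ℕ) / 2 ^ (s' + 1)) _ x _ y
    · rw [memC]
      exact ⟨hsT', h2.2, ⟨j, hj, h1.2⟩, hny⟩
    · rw [mem_keys3]
      refine ⟨hT, by simp only; omega, ?_, by simp only; omega, ?_⟩
      · exact lt_of_le_of_lt (Nat.div_le_self _ _) x.2
      · exact lt_of_le_of_lt (Nat.div_le_self _ _) k.2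
    · rw [memR]
      exact ⟨hsT, h1.1, ⟨k, hk, h2.1⟩, hnx⟩
  · refine le_trans hL3 ?_
    rw [sum_add_distrib]
    apply add_le_add
    · apply count
      intro x
      apply card_keys _ M (fun κ => (κ.2.1, κ.2.2.2.1))
      · intro κ hκ
        rw [mem_filter, mem_keys3] at hκ
        exact ⟨hκ.1.2.1, hκ.1.2.2.2.1⟩
      · rintro ⟨T, s, b, s', b'⟩ hκ ⟨T2, s2, b2, s2', b2'⟩ hκ' heq
        rw [mem_filter, memR] at hκ hκ'
        simp only [Prod.mk.injEq] at heq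
        obtain ⟨rfl, rfl⟩ := heq
        obtain ⟨_, hsT, hxb, ⟨k, hk, hkb⟩, hno⟩ := hκ
        obtain ⟨_, hsT2, hxb2, ⟨k2, hk2, hkb2⟩, hno2⟩ := hκ'
        simp only at hsT hxb hk hkb hno hsT2 hxb2 hk2 hkb2 hno2
        have hTT : T = T2 := by
          rcases lt_trichotomy T T2 with h | h | h
          · exact absurd ⟨T, hsT, h, k, hk.1, hk.2.1⟩ hno2
          · exact h
          · exact absurd ⟨T2, hsT2, h, k2, hk2.1, hk2.2.1⟩ hno
        subst hTT
        rw [hk.unique hk2] at hkb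
        have h1 : b = b2 := by omega
        have h2 : b' = b2' := by omega
        rw [h1, h2]
    · apply count
      intro y
      apply card_keys _ M (fun κ => (κ.2.1, κ.2.2.2.1))
      · intro κ hκ
        rw [mem_filter, mem_keys3] at hκ
        exact ⟨hκ.1.2.1, hκ.1.2.2.2.1⟩
      · rintro ⟨T, s, b, s', b'⟩ hκ ⟨T2, s2, b2, s2', b2'⟩ hκ' heq
        rw [mem_filter, memC] at hκ hκ'
        simp only [Prod.mk.injEq] at heq
        obtain ⟨rfl, rfl⟩ := heq
        obtain ⟨_, hsT, hyb, ⟨j, hj, hjb⟩, hno⟩ := hκ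
        obtain ⟨_, hsT2, hyb2, ⟨j2, hj2, hjb2⟩, hno2⟩ := hκ'
        simp only at hsT hyb hj hjb hno hsT2 hyb2 hj2 hjb2 hno2
        have hTT : T = T2 := by
          rcases lt_trichotomy T T2 with h | h | h
          · exact absurd ⟨T, hsT, h, j, hj.1, hj.2.1⟩ hno2
          · exact h
          · exact absurd ⟨T2, hsT2, h, j2, hj2.1, hj2.2.1⟩ hno
        subst hTT
        rw [hj.unique hj2] at hjb
        have h1 : b = b2 := by omega
        have h2 : b' = b2' := by omega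
        rw [h1, h2]

/-- single edges to the first and last neighbours -/
lemma fam0 (M : ℕ) :
    ∃ L : List (Finset (Fin n) × Finset (Fin n)), (∀ p ∈ L, IsBiclique G p) ∧
      (∀ (T : ℕ) (x k : Fin n), T < M → IsF G T x k → ∃ p ∈ L, x ∈ p.1 ∧ k ∈ p.2) ∧
      coverSize L ≤ n * M * 2 := by
  classical
  let C : Fin n × ℕ → Finset (Fin n) := fun κ => univ.filter (fun k : Fin n => IsF G κ.2 κ.1 k)
  have memC : ∀ κ y, y ∈ C κ ↔ IsF G κ.2 κ.1 y := by
    intro κ y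
    simp only [C, mem_filter, mem_univ, true_and]
  obtain ⟨L, hL1, hL2, hL3⟩ := family (G := G) ((univ : Finset (Fin n)) ×ˢ range M)
    (fun κ => {κ.1}) C (by
    rintro ⟨x, T⟩ _ x' hx y hy
    rw [mem_singleton] at hx
    rw [memC] at hy
    rw [hx]
    exact hy.1)
  refine ⟨L, hL1, ?_, ?_⟩
  · intro T x k hT hk
    apply hL2 (x, T) _ x _ k
    · rw [memC]
      exact hk
    · rw [mem_product, mem_range]
      exact ⟨mem_univ _, hT⟩
    · exact mem_singleton_self _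
  · refine le_trans hL3 ?_
    have : ∀ κ ∈ (univ : Finset (Fin n)) ×ˢ range M, ({κ.1} : Finset (Fin n)).card + (C κ).card ≤
        2 := by
      intro κ _
      have : (C κ).card ≤ 1 := card_le_one.2 (fun a ha b hb =>
        ((memC κ a).1 ha).unique ((memC κ b).1 hb))
      rw [card_singleton]
      omega
    refine le_trans (sum_le_card_nsmul _ _ _ this) ?_
    rw [card_product, card_univ, Fintype.card_fin, card_range, smul_eq_mul]

/-- single edges to the last neighbours -/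
lemma fam0' (M : ℕ) :
    ∃ L : List (Finset (Fin n) × Finset (Fin n)), (∀ p ∈ L, IsBiclique G p) ∧
      (∀ (T : ℕ) (y j : Fin n), T < M → IsL G T y j → ∃ p ∈ L, j ∈ p.1 ∧ y ∈ p.2) ∧
      coverSize L ≤ n * M * 2 := by
  classical
  let C : Fin n × ℕ → Finset (Fin n) := fun κ => univ.filter (fun k : Fin n => IsL G κ.2 κ.1 k)
  have memC : ∀ κ y, y ∈ C κ ↔ IsL G κ.2 κ.1 y := by
    intro κ y
    simp only [C, mem_filter, mem_univ, true_and]
  obtain ⟨L, hL1, hL2, hL3⟩ := family (G := G) ((univ : Finset (Fin n)) ×ˢ range M)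
    C (fun κ => {κ.1}) (by
    rintro ⟨x, T⟩ _ x' hx y hy
    rw [mem_singleton] at hy
    rw [memC] at hx
    rw [hy]
    exact hx.1)
  refine ⟨L, hL1, ?_, ?_⟩
  · intro T y j hT hj
    apply hL2 (y, T) _ j _ y
    · exact mem_singleton_self _
    · rw [mem_product, mem_range]
      exact ⟨mem_univ _, hT⟩
    · rw [memC]
      exact hj
  · refine le_trans hL3 ?_
    have : ∀ κ ∈ (univ : Finset (Fin n)) ×ˢ range M, (C κ).card + ({κ.1} : Finset (Fin n)).card ≤
        2 := by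
      intro κ _
      have : (C κ).card ≤ 1 := card_le_one.2 (fun a ha b hb =>
        ((memC κ a).1 ha).unique ((memC κ b).1 hb))
      rw [card_singleton]
      omega
    refine le_trans (sum_le_card_nsmul _ _ _ this) ?_
    rw [card_product, card_univ, Fintype.card_fin, card_range, smul_eq_mul]

lemma coverSize_append (L L' : List (Finset (Fin n) × Finset (Fin n))) :
    coverSize (L ++ L') = coverSize L + coverSize L' := by
  unfold coverSize
  rw [List.map_append, List.sum_append]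

theorem main (hG : Capped G) (M : ℕ) (hM : n ≤ 2 ^ M) :
    ∃ L, IsBicliqueCover G L ∧ coverSize L ≤ 4 * n * M + 6 * n * (M * M) := by
  obtain ⟨L0, a0, b0, c0⟩ := fam0 (G := G) M
  obtain ⟨L0', a0', b0', c0'⟩ := fam0' (G := G) M
  obtain ⟨L1, a1, b1, c1⟩ := fam1 hG M
  obtain ⟨L2, a2, b2, c2⟩ := fam2 hG M
  obtain ⟨L3, a3, b3, c3⟩ := fam3 hG M
  have key : ∀ x y : Fin n, x < y → G.Adj x y →
      ∃ p ∈ L0 ++ (L0' ++ (L1 ++ (L2 ++ L3))), x ∈ p.1 ∧ y ∈ p.2 := by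
    intro x y hxy hadj
    have hxy' : (x : ℕ) < y := hxy
    obtain ⟨T, hT, hsep⟩ := exists_sep hxy' (lt_of_lt_of_le y.2 hM)
    have hRA : RA G T x := ⟨y, hadj, hsep⟩
    have hCA : CA G T y := ⟨x, hadj, hsep⟩
    obtain ⟨k, hk⟩ := hRA.exists
    obtain ⟨j, hj⟩ := hCA.exists
    have hky : k ≤ y := hk.2.2 y hadj hsep
    have hxj : x ≤ j := hj.2.2 x hadj hsep
    by_cases hk1 : k = y
    · rw [hk1] at hk
      obtain ⟨p, hp, h⟩ := b0 T x y hT hk
      exact ⟨p, by simp [hp], h⟩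
    by_cases hj1 : x = j
    · rw [← hj1] at hj
      obtain ⟨p, hp, h⟩ := b0' T y x hT hj
      exact ⟨p, by simp [hp], h⟩
    have hkT := hk.2.1.halves
    have hjT := hj.2.1.halves
    have hsT := hsep.halves
    have e0 : (j : ℕ) / 2 ^ (T + 1) = (x : ℕ) / 2 ^ (T + 1) := by
      rw [hj.2.1.1, hsep.1]
    -- scales of `x, j` and `k, y`
    have sub : ∀ a b : Fin n, a < b → (a : ℕ) / 2 ^ T = (b : ℕ) / 2 ^ T →
        ∃ s < T, sep s a b := by
      intro a b hab heq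
      have hab' : (a : ℕ) < b := hab
      obtain ⟨s, hs, hsep'⟩ := exists_sep hab' (lt_of_lt_of_le b.2 hM)
      refine ⟨s, ?_, hsep'⟩
      by_contra hcon
      have := div_up (not_lt.1 hcon) heq
      have := hsep'.2
      omega
    obtain ⟨s, hs, hsxj⟩ := sub x j (lt_of_le_of_ne hxj hj1) (by rw [hsT.1, hjT.1, e0])
    obtain ⟨s', hs', hsky⟩ := sub k y (lt_of_le_of_ne hky hk1) (by rw [hkT.2, hsT.2])
    by_cases h1 : ∃ t, s < t ∧ t < T ∧ RA G t x
    · obtain ⟨t, ht1, ht2, ht3⟩ := h1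
      obtain ⟨p, hp, h⟩ := b1 T s t x y j hT ht1 ht2 hj hsxj ht3
      exact ⟨p, by simp [hp], h⟩
    by_cases h2 : ∃ t, s' < t ∧ t < T ∧ CA G t y
    · obtain ⟨t, ht1, ht2, ht3⟩ := h2
      obtain ⟨p, hp, h⟩ := b2 T s' t x y k hT ht1 ht2 hk hsky ht3
      exact ⟨p, by simp [hp], h⟩
    · obtain ⟨p, hp, h⟩ := b3 T s s' x y j k hT hs hs' hk hj hsxj hsky h1 h2
      exact ⟨p, by simp [hp], h⟩
  refine ⟨L0 ++ (L0' ++ (L1 ++ (L2 ++ L3))), ⟨?_, ?_⟩, ?_⟩
  · intro p hp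
    simp only [List.mem_append] at hp
    rcases hp with h | h | h | h | h
    · exact a0 p h
    · exact a0' p h
    · exact a1 p h
    · exact a2 p h
    · exact a3 p h
  · intro a b hab
    rcases lt_trichotomy a b with h | h | h
    · obtain ⟨p, hp, h1⟩ := key a b h hab
      exact ⟨p, hp, Or.inl h1⟩
    · exact absurd h hab.ne
    · obtain ⟨p, hp, h1⟩ := key b a h hab.symm
      exact ⟨p, hp, Or.inr h1⟩
  · simp only [coverSize_append]
    have e1 : n * M * 2 + n * M * 2 = 4 * n * M := by ring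
    have e2 : 3 * (n * (M * M) + n * (M * M)) = 6 * n * (M * M) := by ring
    omega

end

/-- There is an absolute constant `C` such that every capped ordered graph on `n ≥ 2` vertices has a
biclique cover of size at most `C * n * (log n) ^ 2`. -/
theorem result : ∃ C : ℝ, ∀ (n : ℕ), 2 ≤ n → ∀ G : SimpleGraph (Fin n), Capped G →
    ∃ L : List (Finset (Fin n) × Finset (Fin n)), IsBicliqueCover G L ∧
      (coverSize L : ℝ) ≤ C * n * (Real.log n) ^ 2 := by
  refine ⟨40 / (Real.log 2) ^ 2, ?_⟩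
  intro n hn G hG
  obtain ⟨L, hL, hsize⟩ := main hG (Nat.clog 2 n) (Nat.le_pow_clog (by norm_num) n)
  refine ⟨L, hL, ?_⟩
  obtain ⟨M, hM⟩ : ∃ M, M = Nat.clog 2 n := ⟨_, rfl⟩
  rw [← hM] at hsize
  have hlog2 : 0 < Real.log 2 := Real.log_pos (by norm_num)
  have hn' : (2 : ℝ) ≤ n := by exact_mod_cast hn
  have hlogn : Real.log 2 ≤ Real.log n := Real.log_le_log (by norm_num) hn'
  have hM1 : 1 ≤ M := by
    rw [hM]
    exact Nat.clog_pos (by norm_num) hn
  have hMr : (1 : ℝ) ≤ M := by exact_mod_cast hM1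
  have hlt : (2 : ℝ) ^ (M - 1) ≤ n := by
    have := Nat.pow_pred_clog_lt_self (b := 2) (by norm_num) (show 1 < n by omega)
    rw [← hM] at this
    have h2 : 2 ^ (M - 1) ≤ n := this.le
    exact_mod_cast h2
  have hle : ((M : ℝ) - 1) * Real.log 2 ≤ Real.log n := by
    have h1 := Real.log_le_log (by positivity) hlt
    rw [Real.log_pow] at h1
    have h2 : ((M - 1 : ℕ) : ℝ) = (M : ℝ) - 1 := by
      rw [Nat.cast_sub hM1]
      norm_num
    rwa [h2] at h1
  have hM2 : (M : ℝ) * Real.log 2 ≤ 2 * Real.log n := by nlinarith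
  have hMM : (M : ℝ) * M * (Real.log 2) ^ 2 ≤ 4 * (Real.log n) ^ 2 := by
    have h0 : 0 ≤ (M : ℝ) * Real.log 2 := by positivity
    nlinarith
  have hs : (coverSize L : ℝ) ≤ 10 * n * (M * M) := by
    have h1 : (coverSize L : ℝ) ≤ 4 * n * M + 6 * n * (M * M) := by exact_mod_cast hsize
    have h2 : (n : ℝ) * M ≤ n * (M * M) := by
      apply mul_le_mul_of_nonneg_left _ (by positivity)
      nlinarith
    nlinarith
  refine le_trans hs ?_
  rw [div_mul_eq_mul_div, div_mul_eq_mul_div, le_div_iff₀ (by positivity)]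
  have hn0 : (0 : ℝ) ≤ n := by positivity
  nlinarith [mul_le_mul_of_nonneg_left hMM hn0]

end Pool.Agent.Results.MP_7bf775_co.CappedCover
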